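import Pool.Agent.Q252.PBL.Sep

set_option autoImplicit false
set_option linter.unusedSectionVars false

/-! Order continuous functionals and their moduli; atoms. -/

namespace Pool.Agent.Q252.PBL

open Topology Filter
open Pool.Agent.Q195.BL

universe u

variable {X : Type u} [NormedAddCommGroup X] [NormedSpace ℝ X] [Lattice X]

/-- atoms of a Banach lattice -/
def IsAtm (a : X) : Prop := 0 < a ∧ ∀ x, 0 ≤ x → x ≤ a → ∃ c : ℝ, 0 ≤ c ∧ x = c • a

/-- order continuous functionals: `f (x i) → 0` for every decreasing net `x` with infimum `0` -/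
def IsOrdCont (f : X →L[ℝ] ℝ) : Prop :=
  ∀ (ι : Type u) [Preorder ι] [Nonempty ι] [IsDirected ι (· ≤ ·)] (x : ι → X), Antitone x →
    IsGLB (Set.range x) 0 → Tendsto (fun i => f (x i)) atTop (𝓝 0)

/-- positive, order continuous functionals on the cone -/
structure G (g : X → ℝ) : Prop where
  add : ∀ u v, 0 ≤ u → 0 ≤ v → g (u + v) = g u + g v
  nonneg : ∀ u, 0 ≤ u → 0 ≤ g u
  smul : ∀ (c : ℝ) u, 0 ≤ c → 0 ≤ u → g (c • u) = c * g u
  oc : ∀ z : Set X, z.Nonempty → DirectedOn (· ≥ ·) z → IsGLB z 0 → ∀ ε : ℝ, 0 < ε →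
    ∃ d ∈ z, g d < ε

variable [IsBanachLattice X]

lemma norm_le_of_mem {u v : X} (h : v ∈ Set.Icc 0 u) : ‖v‖ ≤ ‖u‖ := by
  refine norm_le_norm_of_abs_le_abs ?_
  rw [abs_of_nonneg h.1, abs_of_nonneg (h.1.trans h.2)]
  exact h.2

lemma G.mono {g : X → ℝ} (h : G g) {u v : X} (hu : 0 ≤ u) (huv : u ≤ v) : g u ≤ g v := by
  have h1 := h.add u (v - u) hu (sub_nonneg.mpr huv)
  rw [add_sub_cancel] at h1
  have h2 := h.nonneg (v - u) (sub_nonneg.mpr huv)
  linarith

/-- the positive part of a functional -/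
noncomputable def pf (f : X →L[ℝ] ℝ) (u : X) : ℝ := sSup (f '' Set.Icc 0 u)

section pf

variable (f : X →L[ℝ] ℝ)

lemma pf_bdd (u : X) : BddAbove (f '' Set.Icc 0 u) := by
  refine ⟨‖f‖ * ‖u‖, ?_⟩
  rintro _ ⟨v, hv, rfl⟩
  refine (le_abs_self _).trans ((f.le_opNorm v).trans ?_)
  exact mul_le_mul_of_nonneg_left (norm_le_of_mem hv) (norm_nonneg _)

lemma le_pf {u v : X} (h0 : 0 ≤ v) (h : v ≤ u) : f v ≤ pf f u :=
  le_csSup (pf_bdd f u) ⟨v, ⟨h0, h⟩, rfl⟩

lemma pf_le {u : X} (hu : 0 ≤ u) {t : ℝ} (h : ∀ v, 0 ≤ v → v ≤ u → f v ≤ t) : pf f u ≤ t := by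
  refine csSup_le ⟨_, 0, ⟨le_rfl, hu⟩, rfl⟩ ?_
  rintro _ ⟨v, hv, rfl⟩
  exact h v hv.1 hv.2

lemma exists_pf {u : X} (hu : 0 ≤ u) {ε : ℝ} (hε : 0 < ε) :
    ∃ v, 0 ≤ v ∧ v ≤ u ∧ pf f u - ε < f v := by
  by_contra hcon
  push Not at hcon
  have := pf_le f hu hcon
  linarith

lemma pf_add {u v : X} (hu : 0 ≤ u) (hv : 0 ≤ v) : pf f (u + v) = pf f u + pf f v := by
  refine le_antisymm ?_ ?_
  · refine pf_le f (add_nonneg hu hv) fun w hw hwuv => ?_
    have h1 : w ⊓ u + ((w - u) ⊔ 0) = w := by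
      have h2 : (w - u) ⊔ 0 = w ⊔ u - u := by rw [sup_sub, sub_self]
      have h3 := inf_add_sup w u
      rw [h2, ← add_sub_assoc, h3]; abel
    rw [← h1, map_add]
    refine add_le_add (le_pf f (le_inf hw hu) inf_le_right) (le_pf f le_sup_right ?_)
    exact sup_le (by rw [sub_le_iff_le_add, add_comm]; exact hwuv) hv
  · have h1 : pf f u ≤ pf f (u + v) - pf f v := by
      refine pf_le f hu fun a ha hau => ?_
      have h2 : pf f v ≤ pf f (u + v) - f a := by
        refine pf_le f hv fun b hb hbv => ?_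
        have := le_pf f (add_nonneg ha hb) (add_le_add hau hbv)
        rw [map_add] at this
        linarith
      linarith
    linarith

lemma pf_zero : pf f (0 : X) = 0 := by
  refine le_antisymm (pf_le f le_rfl fun v hv hv' => ?_) ?_
  · rw [le_antisymm hv' hv, map_zero]
  · have := le_pf f (le_refl (0 : X)) le_rfl
    rwa [map_zero] at this

lemma pf_smul_le {c : ℝ} (hc : 0 < c) {u : X} (hu : 0 ≤ u) : pf f (c • u) ≤ c * pf f u := by
  refine pf_le f (IsBanachLattice.smul_nonneg _ _ hc.le hu) fun w hw hwu => ?_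
  have h1 : f (c⁻¹ • w) ≤ pf f u := by
    refine le_pf f (IsBanachLattice.smul_nonneg _ _ (inv_nonneg.mpr hc.le) hw) ?_
    have := smul_mono (X := X) (inv_nonneg.mpr hc.le) hwu
    rwa [smul_smul, inv_mul_cancel₀ hc.ne', one_smul] at this
  rw [map_smul, smul_eq_mul, inv_mul_le_iff₀ hc] at h1
  exact h1

lemma pf_smul {c : ℝ} (hc : 0 ≤ c) {u : X} (hu : 0 ≤ u) : pf f (c • u) = c * pf f u := by
  rcases hc.eq_or_lt with rfl | hc'
  · rw [zero_smul, zero_mul, pf_zero]
  refine le_antisymm (pf_smul_le f hc' hu) ?_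
  have h1 := pf_smul_le f (inv_pos.mpr hc') (IsBanachLattice.smul_nonneg _ _ hc hu)
  rw [smul_smul, inv_mul_cancel₀ hc'.ne', one_smul, le_inv_mul_iff₀ hc'] at h1
  exact h1

/-- the modulus of a functional -/
noncomputable def mf (u : X) : ℝ := 2 * pf f u - f u

lemma abs_le_mf {u : X} (hu : 0 ≤ u) : |f u| ≤ mf f u := by
  have h1 := le_pf f hu le_rfl
  have h2 := le_pf f (le_refl (0 : X)) hu
  rw [map_zero] at h2
  rw [abs_le, mf]
  constructor <;> linarith

lemma mf_atm {a : X} (ha : IsAtm a) (h : f a = 0) : mf f a = 0 := by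
  have h1 : pf f a ≤ 0 := by
    refine pf_le f ha.1.le fun v hv hva => ?_
    obtain ⟨c, -, rfl⟩ := ha.2 v hv hva
    rw [map_smul, h, smul_zero]
  have h2 := le_pf f (le_refl (0 : X)) ha.1.le
  rw [map_zero] at h2
  rw [mf, h]; linarith

theorem mf_G (hf : IsOrdCont f) : G (mf f) where
  add := fun u v hu hv => by
    rw [mf, mf, mf, pf_add f hu hv, map_add]; ring
  nonneg := fun u hu => (abs_nonneg _).trans (abs_le_mf f hu)
  smul := fun c u hc hu => by
    rw [mf, mf, pf_smul f hc hu, map_smul, smul_eq_mul]; ring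
  oc := by
    intro z hz hd hz0 ε hε
    obtain ⟨u, hu⟩ := hz
    have hu0 : 0 ≤ u := hz0.1 hu
    obtain ⟨v, hv0, hvu, hv⟩ := exists_pf f hu0 (by positivity : 0 < ε / 8)
    -- the net
    have : Nonempty (↥z)ᵒᵈ := ⟨OrderDual.toDual ⟨u, hu⟩⟩
    have : IsDirected (↥z)ᵒᵈ (· ≤ ·) := ⟨fun i j => by
      obtain ⟨k, hk, hki, hkj⟩ := hd _ (OrderDual.ofDual i).2 _ (OrderDual.ofDual j).2
      exact ⟨OrderDual.toDual ⟨k, hk⟩, hki, hkj⟩⟩
    have hanti : Antitone (fun i : (↥z)ᵒᵈ => (OrderDual.ofDual i).1) := fun i j h => h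
    have hr : Set.range (fun i : (↥z)ᵒᵈ => (OrderDual.ofDual i).1) = z := by
      ext d
      exact ⟨fun ⟨i, hi⟩ => hi ▸ (OrderDual.ofDual i).2, fun h => ⟨OrderDual.toDual ⟨d, h⟩, rfl⟩⟩
    have h1 := hf (↥z)ᵒᵈ (fun i => (OrderDual.ofDual i).1) hanti (by rw [hr]; exact hz0)
    have h2 := hf (↥z)ᵒᵈ (fun i => v ⊓ (OrderDual.ofDual i).1)
      (fun i j h => inf_le_inf_left _ (hanti h)) (by
      constructor
      · rintro _ ⟨i, rfl⟩
        exact le_inf hv0 (hz0.1 (OrderDual.ofDual i).2)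
      · intro w hw
        refine hz0.2 fun d hd' => ?_
        exact (hw ⟨OrderDual.toDual ⟨d, hd'⟩, rfl⟩).trans inf_le_right)
    have h3 := (Metric.tendsto_nhds.mp h1 (ε / 8) (by positivity)).and
      ((Metric.tendsto_nhds.mp h2 (ε / 8) (by positivity)).and
        (eventually_ge_atTop (OrderDual.toDual ⟨u, hu⟩ : (↥z)ᵒᵈ)))
    obtain ⟨i', h4, h5, h6⟩ := h3.exists
    obtain ⟨i, hi⟩ : ∃ i : ↥z, i = OrderDual.ofDual i' := ⟨_, rfl⟩
    rw [← hi] at h4 h5
    have hiu : i.1 ≤ u := by rw [hi]; exact h6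
    have hi0 : 0 ≤ i.1 := hz0.1 i.2
    refine ⟨i.1, i.2, ?_⟩
    rw [dist_zero_right, Real.norm_eq_abs, abs_lt] at h4 h5
    have h7 : pf f u = pf f i.1 + pf f (u - i.1) := by
      rw [← pf_add f hi0 (sub_nonneg.mpr hiu), add_sub_cancel]
    have h8 : f v - f (v ⊓ i.1) ≤ pf f (u - i.1) := by
      rw [← map_sub]
      have h9 : v - v ⊓ i.1 = (v - i.1) ⊔ 0 := by
        have h2 : (v - i.1) ⊔ 0 = v ⊔ i.1 - i.1 := by rw [sup_sub, sub_self]
        have h3 := inf_add_sup v i.1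
        rw [h2, sub_eq_sub_iff_add_eq_add, add_comm _ (v ⊓ i.1), h3]
      rw [h9]
      exact le_pf f le_sup_right (sup_le (sub_le_sub_right hvu _) (sub_nonneg.mpr hiu))
    rw [mf]
    linarith [h4.1, h5.2]

end pf

/-- there are no non-zero real lattice homomorphisms below a functional that vanishes at the
atoms -/
theorem no_hom {g : X → ℝ} (hg : G g) (hga : ∀ a : X, IsAtm a → g a = 0) (φ : X →ₗ[ℝ] ℝ)
    (hφ : ∀ x y, φ (x ⊔ y) = max (φ x) (φ y)) {C : ℝ} (hC : ∀ u, 0 ≤ u → φ u ≤ C * g u)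
    {x : X} (hx : 0 ≤ x) (hφx : 0 < φ x) : False := by
  have hmono : ∀ u v : X, u ≤ v → φ u ≤ φ v := by
    intro u v h
    have := hφ u v
    rw [sup_eq_right.mpr h] at this
    rw [this]
    exact le_max_left _ _
  have habs : ∀ u : X, φ |u| = |φ u| := by
    intro u
    show φ (u ⊔ -u) = max (φ u) (-φ u)
    rw [hφ, map_neg]
  set D : Set X := {u | 0 ≤ u ∧ u ≤ x ∧ φ u = 0} with hD
  have h0D : (0 : X) ∈ D := ⟨le_rfl, hx, map_zero _⟩
  -- `x` is not the supremum of `D`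
  have hns : ¬ IsLUB D x := by
    intro hlub
    have hgx : 0 < g x := by
      by_contra hcon
      have h1 : g x = 0 := le_antisymm (not_lt.mp hcon) (hg.nonneg x hx)
      have := hC x hx
      rw [h1, mul_zero] at this
      linarith
    have hCpos : 0 < C := by
      by_contra hcon
      push Not at hcon
      have := hC x hx
      have h2 := mul_nonpos_of_nonpos_of_nonneg hcon hgx.le
      linarith
    obtain ⟨_, ⟨u, hu, rfl⟩, hlt⟩ := hg.oc ((fun u => x - u) '' D) ⟨_, 0, h0D, rfl⟩ (by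
        rintro _ ⟨u, hu, rfl⟩ _ ⟨v, hv, rfl⟩
        refine ⟨x - (u ⊔ v), ⟨u ⊔ v, ⟨hu.1.trans le_sup_left, sup_le hu.2.1 hv.2.1, ?_⟩, rfl⟩,
          sub_le_sub_left le_sup_left _, sub_le_sub_left le_sup_right _⟩
        rw [hφ, hu.2.2, hv.2.2, max_self]) (by
        constructor
        · rintro _ ⟨u, hu, rfl⟩
          exact sub_nonneg.mpr hu.2.1
        · intro w hw
          have h1 : x ≤ x - w := hlub.2 fun u hu => by
            have := hw ⟨u, hu, rfl⟩
            exact le_sub_comm.mp this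
          have h2 := sub_le_sub_right h1 x
          rw [sub_self, sub_sub_cancel_left] at h2
          exact neg_nonneg.mp h2) (φ x / C) (div_pos hφx hCpos)
    have h1 := hC (x - u) (sub_nonneg.mpr hu.2.1)
    rw [map_sub, hu.2.2, sub_zero] at h1
    rw [lt_div_iff₀ hCpos] at hlt
    linarith
  obtain ⟨b, hb, hxb⟩ : ∃ b ∈ upperBounds D, ¬ x ≤ b := by
    by_contra hcon
    push Not at hcon
    exact hns ⟨fun u hu => hu.2.1, hcon⟩
  set a := x - x ⊓ b with ha
  have ha0 : 0 ≤ a := sub_nonneg.mpr inf_le_left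
  have hane : a ≠ 0 := by
    intro h
    exact hxb (inf_eq_left.mp (sub_eq_zero.mp h).symm)
  have hax : a ≤ x := by
    refine sub_le_self _ (le_inf hx (hb h0D))
  have hdis : ∀ u, 0 ≤ u → φ u = 0 → a ⊓ u = 0 := by
    intro u hu hφu
    set w := a ⊓ u with hw
    have hw0 : 0 ≤ w := le_inf ha0 hu
    have hφw : φ w = 0 := by
      refine le_antisymm ((hmono _ _ inf_le_right).trans hφu.le) ?_
      have := hmono _ _ hw0
      rwa [map_zero] at this
    have hn : ∀ n : ℕ, (n : ℝ) • w ∈ D := by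
      intro n
      induction n with
      | zero => rw [Nat.cast_zero, zero_smul]; exact h0D
      | succ n ih =>
        rw [Nat.cast_succ, add_smul, one_smul]
        refine ⟨add_nonneg ih.1 hw0, ?_, by rw [map_add, ih.2.2, hφw, add_zero]⟩
        calc (n : ℝ) • w + w ≤ x ⊓ b + a :=
              add_le_add (le_inf ih.2.1 (hb ih)) inf_le_left
          _ = x := by rw [ha]; abel
    have h1 : ∀ n : ℕ, (n : ℝ) * ‖w‖ ≤ ‖x‖ := by
      intro n
      have := norm_le_of_mem (X := X) (u := x) (v := (n : ℝ) • w) ⟨(hn n).1, (hn n).2.1⟩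
      rwa [norm_smul, Real.norm_of_nonneg (Nat.cast_nonneg n)] at this
    have h2 : ‖w‖ ≤ 0 := by
      by_contra hcon
      push Not at hcon
      obtain ⟨n, hn'⟩ := exists_nat_gt (‖x‖ / ‖w‖)
      rw [div_lt_iff₀ hcon] at hn'
      linarith [h1 n]
    exact norm_le_zero_iff.mp h2
  have hφa : 0 < φ a := by
    have h1 := hmono _ _ ha0
    rw [map_zero] at h1
    refine lt_of_le_of_ne h1 fun h => hane ?_
    have := hdis a ha0 h.symm
    rwa [inf_idem] at this
  have hatm : IsAtm a := by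
    refine ⟨lt_of_le_of_ne ha0 (Ne.symm hane), fun v hv hva => ?_⟩
    have hφv : 0 ≤ φ v := by
      have := hmono _ _ hv
      rwa [map_zero] at this
    refine ⟨φ v / φ a, div_nonneg hφv hφa.le, ?_⟩
    set c := φ v / φ a with hc
    have hc0 : 0 ≤ c := div_nonneg hφv hφa.le
    have h1 : φ (v - c • a) = 0 := by
      rw [map_sub, map_smul, smul_eq_mul, hc, div_mul_cancel₀ _ hφa.ne', sub_self]
    have h2 : φ |v - c • a| = 0 := by rw [habs, h1, abs_zero]
    have h3 := hdis _ (abs_nonneg _) h2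
    have h4 : |v - c • a| ≤ (1 + c) • a := by
      rw [add_smul, one_smul]
      have hca : 0 ≤ c • a := IsBanachLattice.smul_nonneg _ _ hc0 ha0
      show (v - c • a) ⊔ -(v - c • a) ≤ a + c • a
      refine sup_le ((sub_le_self _ hca).trans (hva.trans (le_add_of_nonneg_right hca))) ?_
      rw [neg_sub]
      exact (sub_le_self _ hv).trans (le_add_of_nonneg_left ha0)
    have h5 := inf_smul_of_inf (X := X) (abs_nonneg (v - c • a)) ha0 (by rw [inf_comm]; exact h3)
      (c := 1 + c) (by linarith)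
    rw [inf_eq_left.mpr h4] at h5
    have h6 : v - c • a = 0 := eq_zero_of_abs h5.le
    exact sub_eq_zero.mp h6
  have h1 := hC a ha0
  rw [hga a hatm, mul_zero] at h1
  linarith

end Pool.Agent.Q252.PBL
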