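import Pool.Agent.Q252.PBL.Pair
import Pool.Agent.Q252.PBL.Fun

set_option autoImplicit false
set_option linter.unusedSectionVars false

/-! Order continuous functionals on projective Banach lattices are determined by the atoms. -/

namespace Pool.Agent.Q252.PBL

open Topology Filter
open Pool.Agent.Q195.BL

universe u

variable {X : Type u} [NormedAddCommGroup X] [NormedSpace ℝ X] [Lattice X] [IsBanachLattice X]

/-- `F x` depends only on the coordinates in `B` -/
def Dep {A : Type u} (B : Set A) (h : Cube A → ℝ) : Prop :=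
  ∀ p q : Cube A, (∀ b ∈ B, p b = q b) → h p = h q

lemma Dep.mono {A : Type u} {B B' : Set A} {h : Cube A → ℝ} (hd : Dep B h) (hB : B ⊆ B') :
    Dep B' h := fun p q hpq => hd p q fun b hb => hpq b (hB hb)

/-- the key step: a countable set of coordinates that is closed enough -/
theorem key {A : Type u} (F : X →ₗ[ℝ] (Cube A → ℝ)) (hF1 : ∀ x y, F (x ⊔ y) = F x ⊔ F y)
    (hF2 : ∀ x, Continuous (F x)) (hF3 : ∀ x, ∃ B : Set A, B.Countable ∧ Dep B (F x))
    {g : X → ℝ} (hg : G g) (hga : ∀ a : X, IsAtm a → g a = 0) {x : X} (hx : 0 ≤ x) :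
    ∃ B : Set A, B.Countable ∧ ∀ (p : Cube A) (ε : ℝ), 0 < ε →
      ∃ y, 0 ≤ y ∧ y ≤ x ∧ Dep B (F y) ∧ F y p = 0 ∧ g (x - y) < ε := by
  have hpos : ∀ u, 0 ≤ u → ∀ p, 0 ≤ F u p := by
    intro u hu p
    have := congrFun (hF1 u 0) p
    rw [sup_eq_left.mpr hu, map_zero] at this
    rw [this]
    exact le_sup_right
  obtain ⟨B0, hB0, hdx⟩ := hF3 x
  -- the compactness argument
  have hcomp : ∀ C : ℕ, ∃ B : Set A, B.Countable ∧ ∀ p, ¬ (1 / ((C : ℝ) + 1) ≤ F x p ∧
      ∀ u, 0 ≤ u → Dep B (F u) → F u p ≤ ((C : ℝ) + 1) * g u) := by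
    intro C
    by_contra hcon
    push Not at hcon
    let H : {B : Set A // B.Countable} → Set (Cube A) := fun B => {p | 1 / ((C : ℝ) + 1) ≤ F x p ∧
      ∀ u, 0 ≤ u → Dep B.1 (F u) → F u p ≤ ((C : ℝ) + 1) * g u}
    have hHc : ∀ B, IsClosed (H B) := by
      intro B
      have h1 : H B = {p | 1 / ((C : ℝ) + 1) ≤ F x p} ∩
          ⋂ u : {u : X // 0 ≤ u ∧ Dep B.1 (F u)}, {p | F u.1 p ≤ ((C : ℝ) + 1) * g u.1} := by
        ext p
        simp only [Set.mem_inter_iff, Set.mem_iInter, Set.mem_ofPred_eq, H]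
        exact and_congr_right fun _ => ⟨fun h u => h u.1 u.2.1 u.2.2, fun h u hu hd => h ⟨u, hu, hd⟩⟩
      rw [h1]
      refine (isClosed_le continuous_const (hF2 x)).inter (isClosed_iInter fun u => ?_)
      exact isClosed_le (hF2 u.1) continuous_const
    have hne : (⋂ B, H B).Nonempty := by
      have : Nonempty {B : Set A // B.Countable} := ⟨⟨∅, Set.countable_empty⟩⟩
      refine IsCompact.nonempty_iInter_of_directed_nonempty_isCompact_isClosed H ?_ ?_
        (fun B => (hHc B).isCompact) hHc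
      · rintro ⟨B, hB⟩ ⟨B', hB'⟩
        refine ⟨⟨B ∪ B', hB.union hB'⟩, fun p hp => ⟨hp.1, fun u hu hd => ?_⟩,
          fun p hp => ⟨hp.1, fun u hu hd => ?_⟩⟩
        · exact hp.2 u hu (hd.mono Set.subset_union_left)
        · exact hp.2 u hu (hd.mono Set.subset_union_right)
      · rintro ⟨B, hB⟩
        obtain ⟨p, hp⟩ := hcon B hB
        exact ⟨p, hp⟩
    obtain ⟨p, hp⟩ := hne
    rw [Set.mem_iInter] at hp
    refine no_hom hg hga ((LinearMap.proj p).comp F) (fun u v => ?_) (C := (C : ℝ) + 1)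
      (fun u hu => ?_) hx ?_
    · show F (u ⊔ v) p = _
      rw [hF1]; rfl
    · obtain ⟨B, hB, hd⟩ := hF3 u
      exact (hp ⟨B, hB⟩).2 u hu hd
    · exact lt_of_lt_of_le (by positivity) (hp ⟨∅, Set.countable_empty⟩).1
  choose B hB hBp using hcomp
  refine ⟨B0 ∪ ⋃ n, B n, hB0.union (Set.countable_iUnion hB), fun p ε hε => ?_⟩
  have hdx' : Dep (B0 ∪ ⋃ n, B n) (F x) := hdx.mono Set.subset_union_left
  have hg0 : g 0 = 0 := by
    have := hg.smul 0 0 le_rfl le_rfl
    rwa [zero_smul, zero_mul] at this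
  rcases (hpos x hx p).eq_or_lt with h0 | h0
  · exact ⟨x, hx, le_rfl, hdx', h0.symm, by rw [sub_self, hg0]; exact hε⟩
  obtain ⟨C, hC⟩ := exists_nat_gt (max (1 / F x p) (F x p / ε))
  have hC1 : 1 / F x p < C := (le_max_left _ _).trans_lt hC
  have hC2 : F x p / ε < C := (le_max_right _ _).trans_lt hC
  rw [div_lt_iff₀ h0] at hC1
  rw [div_lt_iff₀ hε] at hC2
  have hC0 : (0 : ℝ) < (C : ℝ) + 1 := by positivity
  obtain ⟨u, hu, hdu, hlt⟩ : ∃ u, 0 ≤ u ∧ Dep (B C) (F u) ∧ ((C : ℝ) + 1) * g u < F u p := by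
    by_contra hcon
    push Not at hcon
    refine hBp C p ⟨?_, fun u hu hd => hcon u hu hd⟩
    rw [div_le_iff₀ hC0]
    nlinarith
  have hFu : 0 < F u p := lt_of_le_of_lt (mul_nonneg hC0.le (hg.nonneg u hu)) hlt
  have hdu' : Dep (B0 ∪ ⋃ n, B n) (F u) :=
    hdu.mono ((Set.subset_iUnion B C).trans Set.subset_union_right)
  set l := F x p / F u p with hl
  have hl0 : 0 < l := div_pos h0 hFu
  refine ⟨(x - l • u) ⊔ 0, le_sup_right, sup_le (sub_le_self _ (IsBanachLattice.smul_nonneg _ _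
    hl0.le hu)) hx, ?_, ?_, ?_⟩
  · intro q r hqr
    rw [hF1, map_sub, map_smul, map_zero]
    show max (F x q - l * F u q) 0 = max (F x r - l * F u r) 0
    rw [hdx' q r hqr, hdu' q r hqr]
  · rw [hF1, map_sub, map_smul, map_zero]
    show max (F x p - l * F u p) 0 = 0
    rw [hl, div_mul_cancel₀ _ hFu.ne', sub_self, max_self]
  · have h1 : x - (x - l • u) ⊔ 0 ≤ l • u := by
      rw [sub_le_comm]
      exact le_sup_left
    have h2 : 0 ≤ x - (x - l • u) ⊔ 0 :=
      sub_nonneg.mpr (sup_le (sub_le_self _ (IsBanachLattice.smul_nonneg _ _ hl0.le hu)) hx)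
    refine (hg.mono h2 h1).trans_lt ?_
    rw [hg.smul _ _ hl0.le hu]
    have h3 : l * F u p = F x p := by rw [hl, div_mul_cancel₀ _ hFu.ne']
    have h4 : l * (((C : ℝ) + 1) * g u) < F x p := by
      rw [← h3]
      exact mul_lt_mul_of_pos_left hlt hl0
    have h5 : (C : ℝ) * (l * g u) < C * ε := by
      have : 0 ≤ l * g u := mul_nonneg hl0.le (hg.nonneg u hu)
      nlinarith
    have h6 : (0 : ℝ) < C := by
      by_contra hcon
      push Not at hcon
      nlinarith
    exact lt_of_mul_lt_mul_left h5 h6.le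

/-- the main step -/
theorem main {A : Type u} (F : X →ₗ[ℝ] (Cube A → ℝ)) (hF1 : ∀ x y, F (x ⊔ y) = F x ⊔ F y)
    (hF2 : ∀ x, Continuous (F x)) (hF3 : ∀ x, ∃ B : Set A, B.Countable ∧ Dep B (F x))
    (hF4 : ∀ x, 0 ≤ x → F x = 0 → x = 0)
    {g : X → ℝ} (hg : G g) (hga : ∀ a : X, IsAtm a → g a = 0) {x : X} (hx : 0 ≤ x) : g x = 0 := by
  classical
  by_contra hgx
  have hgx0 : 0 < g x := lt_of_le_of_ne (hg.nonneg x hx) (Ne.symm hgx)
  obtain ⟨B, hB, hkey⟩ := key F hF1 hF2 hF3 hg hga hx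
  have : Countable B := hB
  -- the dense sequence
  have hne0 : Nonempty (Set.Icc (-1 : ℝ) 1) := ⟨⟨0, by constructor <;> norm_num⟩⟩
  let dn : ℕ → (B → Set.Icc (-1 : ℝ) 1) := TopologicalSpace.denseSeq _
  have hdn : DenseRange dn := TopologicalSpace.denseRange_denseSeq _
  let glue : (B → Set.Icc (-1 : ℝ) 1) → Cube A → Cube A :=
    fun r q a => if h : a ∈ B then r ⟨a, h⟩ else q a
  have hglc : ∀ q, Continuous fun r => glue r q := by
    intro q
    refine continuous_pi fun a => ?_
    by_cases h : a ∈ B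
    · simp only [glue, h, dif_pos]
      exact continuous_apply _
    · simp only [glue, h, dif_neg, not_false_eq_true]
      exact continuous_const
  let q0 : Cube A := fun _ => ⟨0, by constructor <;> norm_num⟩
  choose y hy0 hyx hyd hyp hyg using fun n : ℕ => hkey (glue (dn n) q0) (g x / 2 * (1 / 2) ^ (n + 1))
    (by positivity)
  have hzero : ∀ w, 0 ≤ w → (∀ n, w ≤ y n) → w = 0 := by
    intro w hw hwy
    refine hF4 w hw ?_
    have hmono : ∀ u v : X, u ≤ v → ∀ p, F u p ≤ F v p := by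
      intro u v h p
      have := congrFun (hF1 u v) p
      rw [sup_eq_right.mpr h] at this
      rw [this]
      exact le_sup_left
    have h1 : ∀ n q, F w (glue (dn n) q) = 0 := by
      intro n q
      refine le_antisymm ((hmono _ _ (hwy n) _).trans ?_) ?_
      · rw [hyd n (glue (dn n) q) (glue (dn n) q0) (fun b hb => by simp [glue, hb]), hyp]
      · have := hmono _ _ hw (glue (dn n) q)
        rwa [map_zero] at this
    funext p
    have h2 : (fun r => F w (glue r p)) = fun _ => 0 :=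
      hdn.equalizer ((hF2 w).comp (hglc p)) continuous_const (by
        funext n
        exact h1 n p)
    have h3 : glue (fun b => p b.1) p = p := by
      funext a
      by_cases h : a ∈ B <;> simp [glue, h]
    have h4 := congrFun h2 (fun b => p b.1)
    simp only [h3] at h4
    exact h4
  let z : ℕ → X := fun n => Nat.rec x (fun k zk => zk ⊓ y k) n
  have hz0 : z 0 = x := rfl
  have hzs : ∀ n, z (n + 1) = z n ⊓ y n := fun n => rfl
  have hzanti : Antitone z := antitone_nat_of_succ_le fun n => by rw [hzs]; exact inf_le_left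
  have hznn : ∀ n, 0 ≤ z n := by
    intro n
    induction n with
    | zero => rw [hz0]; exact hx
    | succ n ih => rw [hzs]; exact le_inf ih (hy0 n)
  have hzx : ∀ n, z n ≤ x := fun n => by
    have := hzanti (Nat.zero_le n)
    rwa [hz0] at this
  have hglb : IsGLB (Set.range z) 0 := by
    constructor
    · rintro _ ⟨n, rfl⟩
      exact hznn n
    · intro w hw
      have h1 : w ⊔ 0 = 0 := by
        refine hzero _ le_sup_right fun n => sup_le ?_ (hy0 n)
        have := hw ⟨n + 1, rfl⟩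
        rw [hzs] at this
        exact this.trans inf_le_right
      rw [← h1]
      exact le_sup_left
  have hgz : ∀ n, g (x - z n) ≤ g x / 2 * (1 - (1 / 2) ^ n) := by
    intro n
    induction n with
    | zero =>
      rw [hz0, sub_self]
      have := hg.smul 0 0 le_rfl le_rfl
      rw [zero_smul, zero_mul] at this
      rw [this]; simp
    | succ n ih =>
      have h1 : x - z (n + 1) ≤ (x - z n) + (x - y n) := by
        have h2 : z n + y n - x ≤ z n ⊓ y n := by
          refine le_inf ?_ ?_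
          · rw [sub_le_iff_le_add]
            exact add_le_add_right (hyx n) _
          · rw [sub_le_iff_le_add, add_comm]
            exact add_le_add_right (hzx n) _
        rw [hzs]
        calc x - z n ⊓ y n ≤ x - (z n + y n - x) := sub_le_sub_left h2 _
          _ = _ := by abel
      have h2 := hg.mono (sub_nonneg.mpr (hzx (n + 1))) h1
      rw [hg.add _ _ (sub_nonneg.mpr (hzx n)) (sub_nonneg.mpr (hyx n))] at h2
      have h3 := (hyg n).le
      have h4 : g x / 2 * (1 - (1 / 2) ^ n) + g x / 2 * (1 / 2) ^ (n + 1) =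
          g x / 2 * (1 - (1 / 2) ^ (n + 1)) := by ring
      linarith
  obtain ⟨_, ⟨n, rfl⟩, hlt⟩ := hg.oc (Set.range z) ⟨_, 0, rfl⟩ (by
    rintro _ ⟨n, rfl⟩ _ ⟨m, rfl⟩
    exact ⟨z (max n m), ⟨_, rfl⟩, hzanti (le_max_left _ _), hzanti (le_max_right _ _)⟩) hglb
    (g x / 2) (by positivity)
  have h1 := hg.add _ _ (sub_nonneg.mpr (hzx n)) (hznn n)
  rw [sub_add_cancel] at h1
  have h2 := hgz n
  have h3 : 0 < g x / 2 * (1 / 2) ^ n := by positivity
  have h4 : g x / 2 * (1 - (1 / 2) ^ n) = g x / 2 - g x / 2 * (1 / 2) ^ n := by ring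
  linarith

end Pool.Agent.Q252.PBL
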