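import Mathlib

set_option autoImplicit false

/-! Sublinear functionals preserving suprema dominate lattice homomorphisms. -/

namespace Pool.Agent.Q252.PBL

universe u

variable {X : Type u} [AddCommGroup X] [Module ℝ X] [Lattice X]

/-- sublinear functionals preserving suprema -/
structure SJ (q : X → ℝ) : Prop where
  add : ∀ x y, q (x + y) ≤ q x + q y
  smul : ∀ (c : ℝ) x, 0 ≤ c → q (c • x) = c * q x
  sup : ∀ x y, q (x ⊔ y) = max (q x) (q y)

lemma SJ.zero {q : X → ℝ} (h : SJ q) : q 0 = 0 := by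
  have := h.smul 0 0 le_rfl
  simpa using this

lemma SJ.neg_le {q : X → ℝ} (h : SJ q) (x : X) : - q (-x) ≤ q x := by
  have := h.add x (-x)
  rw [add_neg_cancel, h.zero] at this
  linarith

lemma SJ.mono {q : X → ℝ} (h : SJ q) {x y : X} (hxy : x ≤ y) : q x ≤ q y := by
  have := h.sup x y
  rw [sup_eq_right.mpr hxy] at this
  rw [this]; exact le_max_left _ _

lemma SJ.chain {c : Set (X → ℝ)} (hc : IsChain (· ≤ ·) c) (hne : c.Nonempty)
    (hq : ∀ q ∈ c, SJ q) {p : X → ℝ} (hp : ∀ q ∈ c, q ≤ p) :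
    SJ (fun x => ⨅ q : c, q.1 x) ∧ ∀ q ∈ c, (fun x => ⨅ q : c, q.1 x) ≤ q := by
  have := hne.to_subtype
  have hbd : ∀ x, BddBelow (Set.range fun q : c => q.1 x) := by
    intro x
    refine ⟨- p (-x), ?_⟩
    rintro _ ⟨q, rfl⟩
    have h1 := (hq q.1 q.2).neg_le x
    have h2 := hp q.1 q.2 (-x)
    show - p (-x) ≤ q.1 x
    linarith
  have hle : ∀ q ∈ c, (fun x => ⨅ q : c, q.1 x) ≤ q := fun q hqc x => ciInf_le (hbd x) ⟨q, hqc⟩
  refine ⟨⟨fun x y => ?_, fun t x ht => ?_, fun x y => ?_⟩, hle⟩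
  · refine le_ciInf_add_ciInf fun i j => ?_
    rcases hc.total i.2 j.2 with h | h
    · calc (⨅ q : c, q.1 (x + y)) ≤ i.1 (x + y) := ciInf_le (hbd _) i
        _ ≤ i.1 x + i.1 y := (hq _ i.2).add x y
        _ ≤ i.1 x + j.1 y := by have := h y; linarith
    · calc (⨅ q : c, q.1 (x + y)) ≤ j.1 (x + y) := ciInf_le (hbd _) j
        _ ≤ j.1 x + j.1 y := (hq _ j.2).add x y
        _ ≤ i.1 x + j.1 y := by have := h x; linarith
  · show (⨅ q : c, q.1 (t • x)) = t * ⨅ q : c, q.1 x
    rw [Real.mul_iInf_of_nonneg ht]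
    congr 1
    funext q
    exact (hq _ q.2).smul t x ht
  · show (⨅ q : c, q.1 (x ⊔ y)) = max (⨅ q : c, q.1 x) (⨅ q : c, q.1 y)
    refine le_antisymm ?_ (max_le ?_ ?_)
    · by_contra hcon
      push Not at hcon
      have h1 := lt_of_le_of_lt (le_max_left _ _) hcon
      have h2 := lt_of_le_of_lt (le_max_right _ _) hcon
      obtain ⟨i, hi⟩ := exists_lt_of_ciInf_lt h1
      obtain ⟨j, hj⟩ := exists_lt_of_ciInf_lt h2
      rcases hc.total i.2 j.2 with h | h
      · have h3 := ciInf_le (hbd (x ⊔ y)) i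
        rw [(hq _ i.2).sup] at h3
        have h4 := h y
        rcases le_max_iff.mp h3 with h5 | h5
        · linarith
        · linarith
      · have h3 := ciInf_le (hbd (x ⊔ y)) j
        rw [(hq _ j.2).sup] at h3
        have h4 := h x
        rcases le_max_iff.mp h3 with h5 | h5
        · linarith
        · linarith
    · refine le_ciInf fun q => (ciInf_le (hbd x) q).trans ?_
      rw [(hq _ q.2).sup]; exact le_max_left _ _
    · refine le_ciInf fun q => (ciInf_le (hbd y) q).trans ?_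
      rw [(hq _ q.2).sup]; exact le_max_right _ _

/-- the modification of `q` in the direction `y` -/
noncomputable def dir (q : X → ℝ) (y : X) (x : X) : ℝ :=
  ⨅ t : ℝ, (q (x + |t| • y) - |t| * q y)

section

variable {q : X → ℝ} (h : SJ q) (y : X)
include h

lemma dir_low (x : X) (t : ℝ) : - q (-x) ≤ q (x + |t| • y) - |t| * q y := by
  have h1 := h.add (x + |t| • y) (-x)
  have h2 : x + |t| • y + -x = |t| • y := by abel
  rw [h2, h.smul _ _ (abs_nonneg t)] at h1
  linarith

lemma dir_bdd (x : X) : BddBelow (Set.range fun t : ℝ => q (x + |t| • y) - |t| * q y) := by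
  refine ⟨- q (-x), ?_⟩
  rintro _ ⟨t, rfl⟩
  exact dir_low h y x t

lemma dir_anti (x : X) {s t : ℝ} (hst : |s| ≤ |t|) :
    q (x + |t| • y) - |t| * q y ≤ q (x + |s| • y) - |s| * q y := by
  have h1 := h.add (x + |s| • y) ((|t| - |s|) • y)
  have h2 : x + |s| • y + (|t| - |s|) • y = x + |t| • y := by
    rw [sub_smul]; abel
  rw [h2, h.smul _ _ (sub_nonneg.mpr hst)] at h1
  linarith

lemma dir_le (x : X) : dir q y x ≤ q x := by
  have := ciInf_le (dir_bdd h y x) (0 : ℝ)
  simpa [dir] using this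

lemma dir_neg : dir q y (-y) ≤ - q y := by
  have := ciInf_le (dir_bdd h y (-y)) (1 : ℝ)
  simpa [dir, h.zero] using this

variable [IsOrderedAddMonoid X]

lemma dir_sj : SJ (dir q y) := by
  refine ⟨fun x x' => ?_, fun c x hc => ?_, fun x x' => ?_⟩
  · refine le_ciInf_add_ciInf fun s t => ?_
    refine (ciInf_le (dir_bdd h y (x + x')) (|s| + |t|)).trans ?_
    have h1 := h.add (x + |s| • y) (x' + |t| • y)
    have h2 : x + |s| • y + (x' + |t| • y) = x + x' + (|s| + |t|) • y := by
      rw [add_smul]; abel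
    have h3 : |(|s| + |t|)| = |s| + |t| := abs_of_nonneg (by positivity)
    rw [h2] at h1
    rw [h3]
    linarith
  · rcases hc.eq_or_lt with rfl | hc'
    · rw [zero_smul, zero_mul]
      refine le_antisymm ((dir_le h y 0).trans h.zero.le) (le_ciInf fun t => ?_)
      rw [zero_add, h.smul _ _ (abs_nonneg t), sub_self]
    · unfold dir
      rw [Real.mul_iInf_of_nonneg hc]
      have key : ∀ t : ℝ, q (c • x + |c * t| • y) - |c * t| * q y =
          c * (q (x + |t| • y) - |t| * q y) := by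
        intro t
        have h2 : c • x + |c * t| • y = c • (x + |t| • y) := by
          rw [smul_add, smul_smul, abs_mul, abs_of_pos hc']
        rw [h2, h.smul _ _ hc, abs_mul, abs_of_pos hc']
        ring
      refine le_antisymm (le_ciInf fun t => ?_) (le_ciInf fun t => ?_)
      · exact (ciInf_le (dir_bdd h y (c • x)) (c * t)).trans (key t).le
      · refine (ciInf_le ⟨c * (- q (-x)), ?_⟩ (c⁻¹ * t)).trans (le_of_eq ?_)
        · rintro _ ⟨s, rfl⟩
          exact mul_le_mul_of_nonneg_left (dir_low h y x s) hc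
        · show c * (q (x + |c⁻¹ * t| • y) - |c⁻¹ * t| * q y) = _
          rw [← key, ← mul_assoc, mul_inv_cancel₀ hc'.ne', one_mul]
  · have hs : ∀ t : ℝ, q (x ⊔ x' + |t| • y) - |t| * q y =
        max (q (x + |t| • y) - |t| * q y) (q (x' + |t| • y) - |t| * q y) := by
      intro t
      rw [sup_add, h.sup, max_sub_sub_right]
    refine le_antisymm ?_ (max_le ?_ ?_)
    · by_contra hcon
      push Not at hcon
      have h1 := lt_of_le_of_lt (le_max_left _ _) hcon
      have h2 := lt_of_le_of_lt (le_max_right _ _) hcon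
      obtain ⟨s, hs1⟩ := exists_lt_of_ciInf_lt h1
      obtain ⟨t, ht1⟩ := exists_lt_of_ciInf_lt h2
      have h3 : |(|s| + |t|)| = |s| + |t| := abs_of_nonneg (by positivity)
      have h4 := dir_anti h y x (s := s) (t := |s| + |t|) (by
        rw [h3]; linarith [abs_nonneg t])
      have h5 := dir_anti h y x' (s := t) (t := |s| + |t|) (by
        rw [h3]; linarith [abs_nonneg s])
      have h6 := ciInf_le (dir_bdd h y (x ⊔ x')) (|s| + |t|)
      rw [hs] at h6
      rcases le_max_iff.mp h6 with h7 | h7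
      · exact absurd (h7.trans (h4.trans hs1.le)) (by
          intro h8
          have := lt_of_lt_of_le hs1 h7
          exact absurd (h4.trans_lt hs1) (not_lt.mpr h7))
      · exact absurd (h5.trans_lt ht1) (not_lt.mpr h7)
    · refine le_ciInf fun t => (ciInf_le (dir_bdd h y x) t).trans ?_
      rw [hs]; exact le_max_left _ _
    · refine le_ciInf fun t => (ciInf_le (dir_bdd h y x') t).trans ?_
      rw [hs]; exact le_max_right _ _

end

variable [IsOrderedAddMonoid X]

/-- every sublinear functional that preserves suprema dominates a linear one, with a given value -/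
theorem exists_hom {p : X → ℝ} (hp : SJ p) (u : X) :
    ∃ φ : X →ₗ[ℝ] ℝ, (∀ x y, φ (x ⊔ y) = max (φ x) (φ y)) ∧ (∀ x, φ x ≤ p x) ∧ p u ≤ φ u := by
  have hp0 := dir_sj hp u
  obtain ⟨m, hm1, hm2⟩ := zorn_le_nonempty₀ (α := (X → ℝ)ᵒᵈ)
    {q : (X → ℝ)ᵒᵈ | SJ (OrderDual.ofDual q) ∧ OrderDual.ofDual q ≤ dir p u} (by
      intro c hc1 hc2 y hy
      have h1 := SJ.chain (X := X) (c := OrderDual.ofDual '' c) (p := dir p u) (by
        rintro _ ⟨a, ha, rfl⟩ _ ⟨b, hb, rfl⟩ hab
        exact (hc2 ha hb (by rintro rfl; exact hab rfl)).symm) ⟨_, y, hy, rfl⟩ (by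
        rintro _ ⟨a, ha, rfl⟩; exact (hc1 ha).1) (by
        rintro _ ⟨a, ha, rfl⟩; exact (hc1 ha).2)
      refine ⟨OrderDual.toDual _, ⟨h1.1, (h1.2 _ ⟨y, hy, rfl⟩).trans (hc1 hy).2⟩, ?_⟩
      intro z hz
      exact h1.2 _ ⟨z, hz, rfl⟩) (OrderDual.toDual (dir p u)) ⟨hp0, le_rfl⟩
  obtain ⟨q, rfl⟩ : ∃ q : X → ℝ, OrderDual.toDual q = m := ⟨OrderDual.ofDual m, rfl⟩
  have hq : SJ q := hm2.prop.1
  have hqp : q ≤ dir p u := hm2.prop.2
  have hmin : ∀ q' : X → ℝ, SJ q' → q' ≤ q → q ≤ q' := by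
    intro q' h1 h2
    exact hm2.le_of_ge (y := OrderDual.toDual q') ⟨h1, h2.trans hqp⟩ h2
  have hneg : ∀ y, q (-y) = - q y := by
    intro y
    have h1 := hmin _ (dir_sj hq y) (dir_le hq y) (-y)
    have h2 := dir_neg hq y
    have h3 := hq.neg_le y
    linarith
  have hadd : ∀ x y, q (x + y) = q x + q y := by
    intro x y
    have h1 := hq.add x y
    have h2 := hq.add (x + y) (-y)
    rw [add_neg_cancel_right, hneg] at h2
    linarith
  have hsmul : ∀ (c : ℝ) x, q (c • x) = c * q x := by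
    intro c x
    rcases le_total 0 c with hc | hc
    · exact hq.smul c x hc
    · have := hq.smul (-c) x (by linarith)
      rw [neg_smul, hneg] at this
      linarith
  refine ⟨{ toFun := q, map_add' := hadd, map_smul' := fun c x => hsmul c x }, hq.sup, ?_, ?_⟩
  · intro x
    exact (hqp x).trans (dir_le hp u x)
  · show p u ≤ q u
    have h1 := hqp (-u)
    have h2 := dir_neg hp u
    rw [hneg] at h1
    linarith

end Pool.Agent.Q252.PBL
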