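import Pool.Agent.Q195.BL1
import Pool.Agent.Q252.PBL.Zorn

set_option autoImplicit false
set_option linter.unusedSectionVars false

/-! A Banach lattice of nets with values in the principal ideals of `X`; `X` is a quotient of it.
Consequence: the real lattice homomorphisms of a projective Banach lattice separate its points. -/

namespace Pool.Agent.Q252.PBL

open Topology Filter
open Pool.Agent.Q195.BL

universe u

variable {X : Type u} [NormedAddCommGroup X] [NormedSpace ℝ X] [Lattice X] [IsBanachLattice X]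

lemma abs_smul' (c : ℝ) (x : X) : |c • x| = |c| • |x| := by
  have key : ∀ (c : ℝ) (x : X), 0 ≤ c → |c • x| = c • |x| := by
    intro c x hc
    rw [abs, abs, smul_sup hc, smul_neg]
  rcases le_total 0 c with hc | hc
  · rw [key c x hc, abs_of_nonneg hc]
  · rw [← abs_neg, ← neg_smul, key (-c) x (by linarith), abs_of_nonpos hc]

/-- the bound `C` -/
def Bd (C : ℝ) (y : X → X) : Prop := ∀ e, ‖y e‖ ≤ C ∧ |y e| ≤ C • |e|

lemma Bd.nonneg {C : ℝ} {y : X → X} (h : Bd C y) : 0 ≤ C := (norm_nonneg _).trans (h 0).1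

lemma Bd.add {a b : ℝ} {y z : X → X} (h : Bd a y) (h' : Bd b z) : Bd (a + b) (y + z) := by
  intro e
  refine ⟨(norm_add_le _ _).trans (add_le_add (h e).1 (h' e).1), ?_⟩
  rw [add_smul]
  exact (abs_add_le _ _).trans (add_le_add (h e).2 (h' e).2)

lemma Bd.smul {C : ℝ} {y : X → X} (h : Bd C y) (c : ℝ) : Bd (|c| * C) (c • y) := by
  intro e
  refine ⟨?_, ?_⟩
  · rw [Pi.smul_apply, norm_smul, Real.norm_eq_abs]
    exact mul_le_mul_of_nonneg_left (h e).1 (abs_nonneg _)
  · rw [Pi.smul_apply, abs_smul', mul_smul]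
    exact smul_mono (abs_nonneg _) (h e).2

lemma Bd.solid {C : ℝ} {y z : X → X} (h : Bd C y) (hz : ∀ e, |z e| ≤ |y e|) : Bd C z := fun e =>
  ⟨(norm_le_norm_of_abs_le_abs (hz e)).trans (h e).1, (hz e).trans (h e).2⟩

lemma Bd.mono {C C' : ℝ} {y : X → X} (h : Bd C y) (hC : C ≤ C') : Bd C' y := fun e =>
  ⟨(h e).1.trans hC, (h e).2.trans (smul_mono_left hC (abs_nonneg e))⟩

lemma le_of_tendsto_smul {a b : X} {C : ℝ} (h : ∀ C' > C, a ≤ C' • b) : a ≤ C • b := by
  have h1 : Tendsto (fun n : ℕ => (C + 1 / ((n : ℝ) + 1)) • b) atTop (𝓝 (C • b)) := by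
    have h2 : Tendsto (fun n : ℕ => (C + 1 / ((n : ℝ) + 1))) atTop (𝓝 (C + 0)) :=
      tendsto_const_nhds.add tendsto_one_div_add_atTop_nhds_zero_nat
    rw [add_zero] at h2
    exact h2.smul_const b
  refine ge_of_tendsto h1 (Eventually.of_forall fun n => h _ ?_)
  have : (0 : ℝ) < 1 / ((n : ℝ) + 1) := by positivity
  linarith

lemma Bd.of_forall {C : ℝ} {y : X → X} (h : ∀ C' > C, Bd C' y) : Bd C y := fun e =>
  ⟨le_of_forall_gt_imp_ge_of_dense fun C' hC' => (h C' hC' e).1,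
    le_of_tendsto_smul fun C' hC' => (h C' hC' e).2⟩

variable (X)

/-- the underlying vector space -/
def netSub : Submodule ℝ (X → X) where
  carrier := {y | (∃ C, Bd C y) ∧ ∃ l, Tendsto y atTop (𝓝 l)}
  zero_mem' := ⟨⟨0, fun e => by simp⟩, 0, tendsto_const_nhds⟩
  add_mem' := by
    rintro x y ⟨⟨C, hC⟩, l, hl⟩ ⟨⟨C', hC'⟩, l', hl'⟩
    exact ⟨⟨_, hC.add hC'⟩, _, hl.add hl'⟩
  smul_mem' := by
    rintro c x ⟨⟨C, hC⟩, l, hl⟩
    exact ⟨⟨_, hC.smul c⟩, _, hl.const_smul c⟩

/-- the Banach lattice of nets -/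
def Net : Type u := netSub X

noncomputable instance : AddCommGroup (Net X) := inferInstanceAs (AddCommGroup (netSub X))
noncomputable instance : Module ℝ (Net X) := inferInstanceAs (Module ℝ (netSub X))

variable {X}

/-- underlying function -/
def fn (x : Net X) : X → X := x.1

@[ext] lemma Net.ext {x y : Net X} (h : ∀ i, fn x i = fn y i) : x = y := Subtype.ext (funext h)

@[simp] lemma fn_add (x y : Net X) (i : X) : fn (x + y) i = fn x i + fn y i := rfl
@[simp] lemma fn_sub (x y : Net X) (i : X) : fn (x - y) i = fn x i - fn y i := rfl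
@[simp] lemma fn_neg (x : Net X) (i : X) : fn (-x) i = - fn x i := rfl
@[simp] lemma fn_zero (i : X) : fn (0 : Net X) i = 0 := rfl
@[simp] lemma fn_smul (c : ℝ) (x : Net X) (i : X) : fn (c • x) i = c • fn x i := rfl

/-- building elements -/
def mkNet (f : X → X) (h1 : ∃ C, Bd C f) (h2 : ∃ l, Tendsto f atTop (𝓝 l)) : Net X := ⟨f, h1, h2⟩

@[simp] lemma fn_mkNet (f : X → X) (h1 : ∃ C, Bd C f) (h2 : ∃ l, Tendsto f atTop (𝓝 l)) :
    fn (mkNet f h1 h2) = f := rfl

noncomputable instance : Norm (Net X) := ⟨fun x => sInf {C | Bd C (fn x)}⟩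

lemma norm_def (x : Net X) : ‖x‖ = sInf {C | Bd C (fn x)} := rfl

lemma bddBelow (x : Net X) : BddBelow {C | Bd C (fn x)} := ⟨0, fun _ h => Bd.nonneg h⟩

lemma bd_norm (x : Net X) : Bd ‖x‖ (fn x) := by
  refine Bd.of_forall fun C' hC' => ?_
  obtain ⟨C, hC, hlt⟩ := exists_lt_of_csInf_lt (show {C | Bd C (fn x)}.Nonempty from x.2.1) hC'
  exact Bd.mono hC hlt.le

lemma norm_le' (x : Net X) {C : ℝ} (h : Bd C (fn x)) : ‖x‖ ≤ C := csInf_le (bddBelow x) h

lemma norm_nonneg'' (x : Net X) : 0 ≤ ‖x‖ := (bd_norm x).nonneg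

lemma norm_smul_le' (c : ℝ) (x : Net X) : ‖c • x‖ ≤ ‖c‖ * ‖x‖ :=
  norm_le' _ ((bd_norm x).smul c)

lemma norm_smul'' (c : ℝ) (x : Net X) : ‖c • x‖ = ‖c‖ * ‖x‖ := by
  refine le_antisymm (norm_smul_le' c x) ?_
  rcases eq_or_ne c 0 with rfl | hc
  · rw [norm_zero, zero_mul]; exact norm_nonneg'' _
  · have h1 := norm_smul_le' c⁻¹ (c • x)
    rw [smul_smul, inv_mul_cancel₀ hc, one_smul, norm_inv] at h1
    have h2 : 0 < ‖c‖ := norm_pos_iff.mpr hc
    calc ‖c‖ * ‖x‖ ≤ ‖c‖ * (‖c‖⁻¹ * ‖c • x‖) := mul_le_mul_of_nonneg_left h1 h2.le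
      _ = ‖c • x‖ := by field_simp

lemma norm_triangle' (x y : Net X) : ‖x + y‖ ≤ ‖x‖ + ‖y‖ :=
  norm_le' _ ((bd_norm x).add (bd_norm y))

lemma norm_eq_zero'' (x : Net X) : ‖x‖ = 0 ↔ x = 0 := by
  constructor
  · intro h
    ext i
    have h1 := (bd_norm x i).1
    rw [h] at h1
    exact norm_le_zero_iff.mp h1
  · rintro rfl
    exact le_antisymm (norm_le' _ fun e => by simp) (norm_nonneg'' _)

noncomputable instance : NormedAddCommGroup (Net X) :=
  NormedAddCommGroup.ofCore (𝕜 := ℝ)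
    { norm_nonneg := norm_nonneg''
      norm_smul := norm_smul''
      norm_triangle := norm_triangle'
      norm_eq_zero_iff := norm_eq_zero'' }

noncomputable instance : NormedSpace ℝ (Net X) :=
  NormedSpace.ofCore (𝕜 := ℝ)
    { norm_nonneg := norm_nonneg''
      norm_smul := norm_smul''
      norm_triangle := norm_triangle'
      norm_eq_zero_iff := norm_eq_zero'' }

lemma sup_abs_le' (a b : X) : |a ⊔ b| ≤ |a| + |b| := by
  rw [abs_le']
  constructor
  · exact sup_le ((le_abs_self a).trans (le_add_of_nonneg_right (abs_nonneg b)))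
      ((le_abs_self b).trans (le_add_of_nonneg_left (abs_nonneg a)))
  · rw [neg_sup]
    exact inf_le_left.trans ((neg_le_abs a).trans (le_add_of_nonneg_right (abs_nonneg b)))

lemma inf_abs_le' (a b : X) : |a ⊓ b| ≤ |a| + |b| := by
  rw [abs_le']
  constructor
  · exact inf_le_left.trans ((le_abs_self a).trans (le_add_of_nonneg_right (abs_nonneg b)))
  · rw [neg_inf]
    exact sup_le ((neg_le_abs a).trans (le_add_of_nonneg_right (abs_nonneg b)))
      ((neg_le_abs b).trans (le_add_of_nonneg_left (abs_nonneg a)))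

lemma bd_of (x y : Net X) (f : X → X) (h : ∀ i, |f i| ≤ |fn x i| + |fn y i|) : ∃ C, Bd C f := by
  refine ⟨‖x‖ + ‖y‖, fun e => ⟨?_, ?_⟩⟩
  · have h1 : ‖f e‖ ≤ ‖|fn x e| + |fn y e|‖ := by
      refine norm_le_norm_of_abs_le_abs ((h e).trans (le_abs_self _))
    refine h1.trans ((norm_add_le _ _).trans ?_)
    rw [norm_abs_eq_norm, norm_abs_eq_norm]
    exact add_le_add (bd_norm x e).1 (bd_norm y e).1
  · rw [add_smul]
    exact (h e).trans (add_le_add (bd_norm x e).2 (bd_norm y e).2)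

noncomputable instance : Max (Net X) := ⟨fun x y => ⟨fn x ⊔ fn y, bd_of x y _ fun _ => sup_abs_le' _ _,
  by obtain ⟨_, l, hl⟩ := x.2; obtain ⟨_, l', hl'⟩ := y.2; exact ⟨_, hl.sup_nhds hl'⟩⟩⟩
noncomputable instance : Min (Net X) := ⟨fun x y => ⟨fn x ⊓ fn y, bd_of x y _ fun _ => inf_abs_le' _ _,
  by obtain ⟨_, l, hl⟩ := x.2; obtain ⟨_, l', hl'⟩ := y.2; exact ⟨_, hl.inf_nhds hl'⟩⟩⟩
instance : LE (Net X) := ⟨fun x y => fn x ≤ fn y⟩
instance : LT (Net X) := ⟨fun x y => fn x < fn y⟩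

noncomputable instance : Lattice (Net X) :=
  Function.Injective.lattice fn Subtype.val_injective Iff.rfl Iff.rfl (fun _ _ => rfl)
    (fun _ _ => rfl)

@[simp] lemma fn_sup (x y : Net X) (i : X) : fn (x ⊔ y) i = fn x i ⊔ fn y i := rfl
@[simp] lemma fn_abs (x : Net X) (i : X) : fn |x| i = |fn x i| := rfl
lemma le_iff (x y : Net X) : x ≤ y ↔ ∀ i, fn x i ≤ fn y i := Iff.rfl

lemma norm_mono {x y : Net X} (h : ∀ i, |fn x i| ≤ |fn y i|) : ‖x‖ ≤ ‖y‖ :=
  norm_le' _ ((bd_norm y).solid h)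

instance : CompleteSpace (Net X) := by
  refine Metric.complete_of_cauchySeq_tendsto fun x hx => ?_
  have hc : ∀ i, ∃ a, Tendsto (fun n => fn (x n) i) atTop (𝓝 a) := by
    intro i
    refine cauchySeq_tendsto_of_complete ?_
    rw [Metric.cauchySeq_iff] at hx ⊢
    intro ε hε
    obtain ⟨N, hN⟩ := hx ε hε
    refine ⟨N, fun m hm n hn => ?_⟩
    have h1 := hN m hm n hn
    rw [dist_eq_norm] at h1 ⊢
    exact ((bd_norm (x m - x n)) i).1.trans_lt h1
  choose a ha using hc
  have key : ∀ ε : ℝ, 0 < ε → ∃ N, ∀ n ≥ N, Bd ε (fn (x n) - a) := by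
    intro ε hε
    obtain ⟨N, hN⟩ := (Metric.cauchySeq_iff.mp hx) ε hε
    refine ⟨N, fun n hn e => ?_⟩
    have hlim : Tendsto (fun m => fn (x n) e - fn (x m) e) atTop (𝓝 (fn (x n) e - a e)) :=
      (ha e).const_sub _
    have hb : ∀ m ≥ N, ‖fn (x n) e - fn (x m) e‖ ≤ ε ∧ |fn (x n) e - fn (x m) e| ≤ ε • |e| := by
      intro m hm
      have h1 := hN n hn m hm
      rw [dist_eq_norm] at h1
      exact (bd_norm (x n - x m)).mono h1.le e
    have hlim2 : Tendsto (fun m => |fn (x n) e - fn (x m) e|) atTop (𝓝 |fn (x n) e - a e|) :=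
      hlim.sup_nhds hlim.neg
    refine ⟨le_of_tendsto hlim.norm ?_, le_of_tendsto hlim2 ?_⟩
    · filter_upwards [eventually_ge_atTop N] with m hm using (hb m hm).1
    · filter_upwards [eventually_ge_atTop N] with m hm using (hb m hm).2
  have hab : ∃ C, Bd C a := by
    obtain ⟨N, hN⟩ := key 1 one_pos
    have h1 : a = fn (x N) + (-1 : ℝ) • (fn (x N) - a) := by
      funext e; simp
    rw [h1]
    exact ⟨_, (bd_norm (x N)).add ((hN N le_rfl).smul (-1))⟩
  have hlim : ∃ l, Tendsto a atTop (𝓝 l) := by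
    refine cauchySeq_tendsto_of_complete (β := X) ?_
    rw [Metric.cauchySeq_iff]
    intro ε hε
    obtain ⟨N, hN⟩ := key (ε / 4) (by linarith)
    obtain ⟨_, l, hl⟩ := (x N).2
    have h1 : CauchySeq (x N).1 := hl.cauchySeq
    rw [Metric.cauchySeq_iff] at h1
    obtain ⟨E, hE⟩ := h1 (ε / 4) (by linarith)
    refine ⟨E, fun m hm n hn => ?_⟩
    have h2 := hE m hm n hn
    have h3 := (hN N le_rfl m).1
    have h4 := (hN N le_rfl n).1
    rw [Pi.sub_apply, ← dist_eq_norm] at h3 h4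
    have h5 := dist_triangle4 (a m) (fn (x N) m) (fn (x N) n) (a n)
    rw [dist_comm (a m) (fn (x N) m)] at h5
    have h6 : dist (fn (x N) m) (fn (x N) n) < ε / 4 := h2
    linarith
  refine ⟨mkNet a hab hlim, ?_⟩
  rw [Metric.tendsto_atTop]
  intro ε hε
  obtain ⟨N, hN⟩ := key (ε / 2) (half_pos hε)
  refine ⟨N, fun n hn => ?_⟩
  rw [dist_eq_norm]
  exact (norm_le' (x n - mkNet a hab hlim) (hN n hn)).trans_lt (half_lt_self hε)

instance : IsBanachLattice (Net X) where
  solid := fun x y h => norm_mono h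
  add_le_add_left := fun x y h z i => by
    show fn x i + fn z i ≤ fn y i + fn z i
    exact add_le_add_left (h i) _
  smul_nonneg := fun c x hc hx i => IsBanachLattice.smul_nonneg c _ hc (hx i)

/-- the limit -/
noncomputable def lm (y : Net X) : X := y.2.2.choose

lemma lm_spec (y : Net X) : Tendsto (fn y) atTop (𝓝 (lm y)) := y.2.2.choose_spec

lemma lm_eq {y : Net X} {l : X} (h : Tendsto (fn y) atTop (𝓝 l)) : lm y = l :=
  tendsto_nhds_unique (lm_spec y) h

/-- the quotient map -/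
noncomputable def Q : Net X →L[ℝ] X :=
  LinearMap.mkContinuous
    { toFun := lm
      map_add' := fun x y => lm_eq ((lm_spec x).add (lm_spec y))
      map_smul' := fun c x => lm_eq ((lm_spec x).const_smul c) } 1 (fun y => by
        rw [one_mul]
        exact le_of_tendsto (lm_spec y).norm (Eventually.of_forall fun e => (bd_norm y e).1))

lemma Q_apply (y : Net X) : Q y = lm y := rfl

lemma Q_isQuot : IsQuot (Q : Net X →L[ℝ] X) where
  hom := fun x y => lm_eq ((lm_spec x).sup_nhds (lm_spec y))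
  norm_le := fun y => le_of_tendsto (lm_spec y).norm (Eventually.of_forall fun e => (bd_norm y e).1)
  lift := by
    classical
    intro x ε hε
    set C : ℝ := ‖x‖ + ε / 2 with hC
    have hC0 : 0 < C := by have := norm_nonneg x; linarith
    let f : X → X := fun e => if |x| ≤ C • |e| then x else 0
    have hb : Bd C f := by
      intro e
      by_cases h : |x| ≤ C • |e|
      · simp only [f, if_pos h]
        exact ⟨by linarith, h⟩
      · simp only [f, if_neg h]
        rw [norm_zero, abs_zero]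
        exact ⟨hC0.le, IsBanachLattice.smul_nonneg _ _ hC0.le (abs_nonneg e)⟩
    have hev : ∀ᶠ e in (atTop : Filter X), f e = x := by
      filter_upwards [eventually_ge_atTop (C⁻¹ • |x|)] with e he
      have h1 : |x| ≤ C • |e| := by
        have h2 := smul_mono (X := X) hC0.le (he.trans (le_abs_self e))
        rwa [smul_smul, mul_inv_cancel₀ hC0.ne', one_smul] at h2
      simp only [f, if_pos h1]
    have ht : Tendsto f atTop (𝓝 x) := tendsto_const_nhds.congr' (hev.mono fun e he => he.symm)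
    refine ⟨mkNet f ⟨C, hb⟩ ⟨x, ht⟩, lm_eq ht, ?_⟩
    refine (norm_le' (mkNet f ⟨C, hb⟩ ⟨x, ht⟩) hb).trans_lt ?_
    linarith

end Pool.Agent.Q252.PBL
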