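import Pool.Agent.Q252.PBL.Sep

set_option autoImplicit false
set_option linter.unusedSectionVars false

/-! Closed sublattices; representation of a projective Banach lattice by continuous functions on a
cube, each of which depends on countably many coordinates. -/

namespace Pool.Agent.Q252.PBL

open Topology Filter
open Pool.Agent.Q195.BL

universe u v

/-- closed vector sublattices -/
structure CSL (E : Type v) [NormedAddCommGroup E] [NormedSpace ℝ E] [Lattice E] where
  S : Submodule ℝ E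
  closed : IsClosed (S : Set E)
  sup : ∀ x ∈ S, ∀ y ∈ S, x ⊔ y ∈ S

section csl

variable {E : Type v} [NormedAddCommGroup E] [NormedSpace ℝ E] [Lattice E] [IsBanachLattice E]

/-- the closed sublattice generated by a set -/
def gen (G : Set E) : CSL E where
  S := sInf {S | (∃ D : CSL E, D.S = S) ∧ G ⊆ S}
  closed := by
    rw [Submodule.coe_sInf]
    refine isClosed_biInter fun S hS => ?_
    obtain ⟨⟨D, rfl⟩, _⟩ := hS
    exact D.closed
  sup := by
    intro x hx y hy
    rw [Submodule.mem_sInf] at *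
    rintro S ⟨⟨D, rfl⟩, hG⟩
    exact D.sup x (hx _ ⟨⟨D, rfl⟩, hG⟩) y (hy _ ⟨⟨D, rfl⟩, hG⟩)

lemma subset_gen (G : Set E) {x : E} (hx : x ∈ G) : x ∈ (gen G).S := by
  show x ∈ sInf {S | (∃ D : CSL E, D.S = S) ∧ G ⊆ S}
  rw [Submodule.mem_sInf]
  rintro S ⟨_, hG⟩
  exact hG hx

lemma gen_le {G : Set E} (D : CSL E) (h : G ⊆ D.S) {x : E} (hx : x ∈ (gen G).S) : x ∈ D.S := by
  have hx' : x ∈ sInf {S | (∃ D : CSL E, D.S = S) ∧ G ⊆ S} := hx
  rw [Submodule.mem_sInf] at hx'
  exact hx' _ ⟨⟨D, rfl⟩, h⟩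

/-- the type of the elements -/
def CSL.Ty (D : CSL E) : Type v := D.S

variable (D : CSL E)

noncomputable instance : NormedAddCommGroup D.Ty := inferInstanceAs (NormedAddCommGroup D.S)
noncomputable instance : NormedSpace ℝ D.Ty := inferInstanceAs (NormedSpace ℝ D.S)

/-- the inclusion -/
def CSL.val (x : D.Ty) : E := x.1

lemma CSL.val_mem (x : D.Ty) : D.val x ∈ D.S := x.2

lemma CSL.inf_mem {x y : E} (hx : x ∈ D.S) (hy : y ∈ D.S) : x ⊓ y ∈ D.S := by
  rw [inf_eq_neg_sup]
  exact D.S.neg_mem (D.sup _ (D.S.neg_mem hx) _ (D.S.neg_mem hy))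

noncomputable instance : Max D.Ty := ⟨fun x y => ⟨D.val x ⊔ D.val y, D.sup _ x.2 _ y.2⟩⟩
noncomputable instance : Min D.Ty := ⟨fun x y => ⟨D.val x ⊓ D.val y, D.inf_mem x.2 y.2⟩⟩
instance : LE D.Ty := ⟨fun x y => D.val x ≤ D.val y⟩
instance : LT D.Ty := ⟨fun x y => D.val x < D.val y⟩

noncomputable instance : Lattice D.Ty :=
  Function.Injective.lattice D.val Subtype.val_injective Iff.rfl Iff.rfl (fun _ _ => rfl)
    (fun _ _ => rfl)

lemma CSL.val_sup (x y : D.Ty) : D.val (x ⊔ y) = D.val x ⊔ D.val y := rfl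
lemma CSL.val_abs (x : D.Ty) : D.val |x| = |D.val x| := rfl
lemma CSL.norm_val (x : D.Ty) : ‖D.val x‖ = ‖x‖ := rfl

instance : CompleteSpace D.Ty := by
  have : CompleteSpace (D.S : Set E) := D.closed.completeSpace_coe
  exact this

instance : IsBanachLattice D.Ty where
  solid := fun x y h => by
    have h1 : |D.val x| ≤ |D.val y| := h
    show ‖D.val x‖ ≤ ‖D.val y‖
    exact norm_le_norm_of_abs_le_abs h1
  add_le_add_left := fun x y h z => by
    have h1 : D.val x ≤ D.val y := h
    show D.val x + D.val z ≤ D.val y + D.val z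
    exact add_le_add_left h1 _
  smul_nonneg := fun c x hc hx => IsBanachLattice.smul_nonneg c (D.val x) hc hx

/-- the inclusion, as a map -/
noncomputable def CSL.valL : D.Ty →L[ℝ] E := D.S.subtypeL

end csl

section pair

variable (X : Type u) [NormedAddCommGroup X] [NormedSpace ℝ X] [Lattice X] [IsBanachLattice X]

/-- the unit ball -/
abbrev Ball : Type u := {a : X // ‖a‖ ≤ 1}

/-- the cube -/
abbrev Cube (A : Type u) : Type u := A → Set.Icc (-1 : ℝ) 1

instance (A : Type u) : IsBanachLattice (BoundedContinuousFunction (Cube A) ℝ) where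
  smul_nonneg := fun _ _ hc hx p => mul_nonneg hc (hx p)

/-- the coordinates -/
noncomputable def crd {A : Type u} (a : A) : BoundedContinuousFunction (Cube A) ℝ :=
  BoundedContinuousFunction.mkOfCompact ⟨fun p => (p a : ℝ), by fun_prop⟩

@[simp] lemma crd_apply {A : Type u} (a : A) (p : Cube A) : crd a p = p a := rfl

lemma norm_crd {A : Type u} (a : A) : ‖crd a‖ ≤ 1 := by
  rw [BoundedContinuousFunction.norm_le zero_le_one]
  intro p
  rw [Real.norm_eq_abs, crd_apply, abs_le]
  exact (p a).2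

/-- the ambient space -/
abbrev Amb : Type u := X × BoundedContinuousFunction (Cube (Ball X)) ℝ

/-- the generators -/
noncomputable def gn (a : Ball X) : Amb X := (a.1, crd a)

/-- the quotient -/
noncomputable def PS : CSL (Amb X) := gen (Set.range (gn X))

noncomputable def Q2 : (PS X).Ty →L[ℝ] X := (ContinuousLinearMap.fst ℝ _ _).comp (PS X).valL

lemma Q2_apply (y : (PS X).Ty) : Q2 X y = ((PS X).val y).1 := rfl

lemma Q2_isQuot : IsQuot (Q2 X) where
  hom := fun x y => rfl
  norm_le := fun y => by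
    rw [Q2_apply]
    exact (norm_fst_le _).trans ((PS X).norm_val y).le
  lift := by
    intro x ε hε
    rcases eq_or_ne x 0 with rfl | hx
    · exact ⟨0, map_zero _, by rw [norm_zero, norm_zero, zero_add]; exact hε⟩
    have hx0 : 0 < ‖x‖ := norm_pos_iff.mpr hx
    have ha : ‖‖x‖⁻¹ • x‖ ≤ 1 := by
      rw [norm_smul, norm_inv, norm_norm, inv_mul_cancel₀ hx0.ne']
    have hm := (PS X).S.smul_mem ‖x‖ (subset_gen (Set.range (gn X)) ⟨⟨_, ha⟩, rfl⟩)
    refine ⟨⟨_, hm⟩, ?_, ?_⟩
    · show ‖x‖ • (‖x‖⁻¹ • x) = x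
      rw [smul_smul, mul_inv_cancel₀ hx0.ne', one_smul]
    · have h1 : ‖‖x‖ • gn X ⟨‖x‖⁻¹ • x, ha⟩‖ ≤ ‖x‖ := by
        rw [norm_smul, norm_norm]
        refine mul_le_of_le_one_right hx0.le ?_
        rw [gn, Prod.norm_def]
        exact max_le ha (norm_crd _)
      exact lt_of_le_of_lt h1 (by linarith)

variable {X}

lemma dep {y : Amb X} (hy : y ∈ (PS X).S) : ∃ B : Set (Ball X), B.Countable ∧
    ∀ p q : Cube (Ball X), (∀ b ∈ B, p b = q b) → y.2 p = y.2 q := by
  let D : CSL (Amb X) :=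
    { S :=
        { carrier := {y | ∃ B : Set (Ball X), B.Countable ∧
            ∀ p q : Cube (Ball X), (∀ b ∈ B, p b = q b) → y.2 p = y.2 q}
          zero_mem' := ⟨∅, Set.countable_empty, fun p q _ => rfl⟩
          add_mem' := by
            rintro y z ⟨B, hB, h⟩ ⟨B', hB', h'⟩
            refine ⟨B ∪ B', hB.union hB', fun p q hpq => ?_⟩
            show y.2 p + z.2 p = y.2 q + z.2 q
            rw [h p q fun b hb => hpq b (Or.inl hb), h' p q fun b hb => hpq b (Or.inr hb)]
          smul_mem' := by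
            rintro c y ⟨B, hB, h⟩
            refine ⟨B, hB, fun p q hpq => ?_⟩
            show c • y.2 p = c • y.2 q
            rw [h p q hpq] }
      closed := by
        refine IsSeqClosed.isClosed ?_
        intro x y hx hy
        choose B hB h using hx
        refine ⟨⋃ n, B n, Set.countable_iUnion hB, fun p q hpq => ?_⟩
        have h1 : ∀ p, Tendsto (fun n => (x n).2 p) atTop (𝓝 (y.2 p)) := fun p =>
          ((continuous_eval_const (F := BoundedContinuousFunction (Cube (Ball X)) ℝ) p).tendsto _).comp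
            ((continuous_snd.tendsto _).comp hy)
        refine tendsto_nhds_unique (h1 p) ((h1 q).congr fun n => ?_)
        exact (h n p q fun b hb => hpq b (Set.mem_iUnion.mpr ⟨n, hb⟩)).symm
      sup := by
        rintro y ⟨B, hB, h⟩ z ⟨B', hB', h'⟩
        refine ⟨B ∪ B', hB.union hB', fun p q hpq => ?_⟩
        show y.2 p ⊔ z.2 p = y.2 q ⊔ z.2 q
        rw [h p q fun b hb => hpq b (Or.inl hb), h' p q fun b hb => hpq b (Or.inr hb)] }
  refine gen_le D ?_ hy
  rintro _ ⟨a, rfl⟩
  refine ⟨{a}, Set.countable_singleton a, fun p q hpq => ?_⟩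
  show ((p a : ℝ)) = q a
  rw [hpq a rfl]

lemma evl {φ : X →L[ℝ] ℝ} (hφ : ∀ x y, φ (x ⊔ y) = max (φ x) (φ y)) {p : Cube (Ball X)}
    (hp : ∀ a : Ball X, (p a : ℝ) = φ a.1) {y : Amb X} (hy : y ∈ (PS X).S) : y.2 p = φ y.1 := by
  let D : CSL (Amb X) :=
    { S :=
        { carrier := {y | y.2 p = φ y.1}
          zero_mem' := (map_zero φ).symm
          add_mem' := by
            intro y z h h'
            show y.2 p + z.2 p = φ (y.1 + z.1)
            rw [map_add, ← h, ← h']
          smul_mem' := by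
            intro c y h
            show c • y.2 p = φ (c • y.1)
            rw [map_smul, ← h] }
      closed := isClosed_eq ((continuous_eval_const (F := BoundedContinuousFunction (Cube (Ball X)) ℝ) p).comp
        continuous_snd) (φ.continuous.comp continuous_fst)
      sup := by
        intro y h z h'
        show y.2 p ⊔ z.2 p = φ (y.1 ⊔ z.1)
        rw [hφ, ← h, ← h'] }
  refine gen_le D ?_ hy
  rintro _ ⟨a, rfl⟩
  exact hp a

/-- projective Banach lattices are lattices of continuous functions on a cube, each of which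
depends on countably many coordinates only -/
theorem rep (hX : Projective.{u, u} X) : ∃ F : X →ₗ[ℝ] (Cube (Ball X) → ℝ),
    (∀ x y, F (x ⊔ y) = F x ⊔ F y) ∧ (∀ x, Continuous (F x)) ∧
    (∀ x, ∃ B : Set (Ball X), B.Countable ∧
      ∀ p q : Cube (Ball X), (∀ b ∈ B, p b = q b) → F x p = F x q) ∧
    ∀ x, 0 ≤ x → F x = 0 → x = 0 := by
  obtain ⟨T, hT, hQT, -⟩ := hX (PS X).Ty X (Q2 X) (Q2_isQuot X) (ContinuousLinearMap.id ℝ X)
    (fun x y => rfl) 1 one_pos
  refine ⟨{ toFun := fun x p => ((PS X).val (T x)).2 p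
            map_add' := fun x y => by rw [map_add]; rfl
            map_smul' := fun c x => by rw [map_smul]; rfl }, ?_, ?_, ?_, ?_⟩
  · intro x y
    show (fun p => ((PS X).val (T (x ⊔ y))).2 p) = _
    rw [hT]; rfl
  · intro x
    exact ((PS X).val (T x)).2.continuous
  · intro x
    exact dep ((PS X).val_mem (T x))
  · intro x hx hF
    by_contra hx0
    obtain ⟨φ, h1, h2, C, hC⟩ := sep hX hx hx0
    have hCpos : 0 < C := by
      by_contra hcon
      push Not at hcon
      have h3 := (le_abs_self _).trans (hC x)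
      have := mul_nonpos_of_nonpos_of_nonneg hcon (norm_nonneg x)
      linarith
    let ψ : X →L[ℝ] ℝ := LinearMap.mkContinuous (C⁻¹ • φ) 1 (fun y => by
      rw [LinearMap.smul_apply, norm_smul, norm_inv, Real.norm_of_nonneg hCpos.le, one_mul,
        inv_mul_le_iff₀ hCpos]
      exact hC y)
    have hψ : ∀ y, ψ y = C⁻¹ * φ y := fun y => rfl
    have hψ1 : ∀ a : Ball X, ψ a.1 ∈ Set.Icc (-1 : ℝ) 1 := by
      intro a
      have h3 : |ψ a.1| ≤ 1 := by
        rw [hψ, abs_mul, abs_inv, abs_of_pos hCpos, inv_mul_le_iff₀ hCpos]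
        exact (hC a.1).trans (mul_le_mul_of_nonneg_left a.2 hCpos.le)
      exact abs_le.mp h3
    have hψ2 : ∀ x y, ψ (x ⊔ y) = max (ψ x) (ψ y) := by
      intro x y
      rw [hψ, hψ, hψ, h1, mul_max_of_nonneg _ _ (inv_nonneg.mpr hCpos.le)]
    have h4 := evl hψ2 (p := fun a => ⟨ψ a.1, hψ1 a⟩) (fun a => rfl) ((PS X).val_mem (T x))
    have h5 : ((PS X).val (T x)).1 = x := hQT x
    have h6 : ((PS X).val (T x)).2 (fun a => ⟨ψ a.1, hψ1 a⟩) = 0 := congrFun hF _
    rw [h5, h6, hψ] at h4
    have := mul_pos (inv_pos.mpr hCpos) h2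
    linarith

end pair

end Pool.Agent.Q252.PBL
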