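import Pool.Agent.Q252.PBL.Net

set_option autoImplicit false
set_option linter.unusedSectionVars false

/-! The real lattice homomorphisms of a projective Banach lattice separate its points. -/

namespace Pool.Agent.Q252.PBL

open Topology Filter
open Pool.Agent.Q195.BL

universe u

variable {X : Type u} [NormedAddCommGroup X] [NormedSpace ℝ X] [Lattice X] [IsBanachLattice X]

lemma nonneg_of_smul {s : ℝ} {b : X} (hb : 0 ≤ b) (hb0 : b ≠ 0) (h : 0 ≤ s • b) : 0 ≤ s := by
  by_contra hs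
  push Not at hs
  apply hb0
  refine le_antisymm ?_ hb
  have h1 := smul_mono (X := X) (inv_nonneg.mpr (neg_nonneg.mpr hs.le)) h
  rw [smul_zero, smul_smul, inv_neg, neg_mul, inv_mul_cancel₀ hs.ne, neg_smul, one_smul] at h1
  exact neg_nonneg.mp h1

lemma eq_zero_of_abs {v : X} (h : |v| ≤ 0) : v = 0 := by
  have h1 : ‖v‖ ≤ ‖(0 : X)‖ := norm_le_norm_of_abs_le_abs (by rwa [abs_zero])
  rw [norm_zero] at h1
  exact norm_le_zero_iff.mp h1

/-- the gauge of `a` with respect to `b` -/
noncomputable def gau (b a : X) : ℝ := sInf {t : ℝ | a ≤ t • b}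

section gau

variable {b : X} (hb : 0 ≤ b) (hb0 : b ≠ 0)
include hb hb0

lemma gau_iff {a : X} {M : ℝ} (ha : |a| ≤ M • b) (t : ℝ) : gau b a ≤ t ↔ a ≤ t • b := by
  have hbd : BddBelow {t : ℝ | a ≤ t • b} := by
    refine ⟨-M, fun t ht => ?_⟩
    have h1 : -(M • b) ≤ a := (neg_le_neg ha).trans (neg_le.mpr (neg_le_abs a))
    have h2 : 0 ≤ (t + M) • b := by
      rw [add_smul]
      have := h1.trans ht
      rwa [neg_le_iff_add_nonneg] at this
    have := nonneg_of_smul hb hb0 h2
    linarith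
  have hne : {t : ℝ | a ≤ t • b}.Nonempty := ⟨M, (le_abs_self a).trans ha⟩
  constructor
  · intro h
    refine le_of_tendsto_smul fun C' hC' => ?_
    obtain ⟨s, hs, hlt⟩ := exists_lt_of_csInf_lt hne (lt_of_le_of_lt h hC')
    exact le_trans hs (smul_mono_left hlt.le hb)
  · intro h
    exact csInf_le hbd h

end gau

/-- the real lattice homomorphisms of a projective Banach lattice separate its points -/
theorem sep (hX : Projective.{u, u} X) {w : X} (hw : 0 ≤ w) (hw0 : w ≠ 0) :
    ∃ φ : X →ₗ[ℝ] ℝ, (∀ x y, φ (x ⊔ y) = max (φ x) (φ y)) ∧ 0 < φ w ∧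
      ∃ C : ℝ, ∀ x, |φ x| ≤ C * ‖x‖ := by
  obtain ⟨T, hT, hQT, -⟩ := hX (Net X) X Q Q_isQuot (ContinuousLinearMap.id ℝ X)
    (fun x y => rfl) 1 one_pos
  have hTw : T w ≠ 0 := by
    intro h
    have := hQT w
    rw [h, map_zero] at this
    exact hw0 this.symm
  have hTw0 : 0 ≤ T w := latHom_nonneg hT hw
  obtain ⟨e, he⟩ : ∃ e, fn (T w) e ≠ 0 := by
    by_contra hcon
    push Not at hcon
    exact hTw (Net.ext hcon)
  have hb : 0 ≤ |e| := abs_nonneg e
  have hbd : ∀ x, |fn (T x) e| ≤ ‖T x‖ • |e| := fun x => (bd_norm (T x) e).2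
  have hb0 : |e| ≠ 0 := by
    intro h
    have h1 := hbd w
    rw [h, smul_zero] at h1
    exact he (eq_zero_of_abs h1)
  set p : X → ℝ := fun x => gau |e| (fn (T x) e) with hp
  have hiff : ∀ x t, p x ≤ t ↔ fn (T x) e ≤ t • |e| := fun x t => gau_iff hb hb0 (hbd x) t
  have hSJ : SJ p := by
    refine ⟨fun x y => ?_, fun c x hc => ?_, fun x y => ?_⟩
    · rw [hiff, map_add, fn_add, add_smul]
      exact add_le_add ((hiff x _).mp le_rfl) ((hiff y _).mp le_rfl)
    · rcases hc.eq_or_lt with rfl | hc'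
      · rw [zero_smul, zero_mul]
        refine le_antisymm ?_ ?_
        · rw [hiff, map_zero, fn_zero, zero_smul]
        · have h1 := (hiff 0 _).mp le_rfl
          rw [map_zero, fn_zero] at h1
          exact nonneg_of_smul hb hb0 h1
      · refine le_antisymm ?_ ?_
        · rw [hiff, map_smul, fn_smul, mul_smul]
          exact smul_mono hc ((hiff x _).mp le_rfl)
        · rw [← le_inv_mul_iff₀ hc', hiff, mul_smul]
          have h1 := smul_mono (X := X) (inv_nonneg.mpr hc) ((hiff (c • x) _).mp le_rfl)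
          rwa [map_smul, fn_smul, smul_smul c⁻¹ c, inv_mul_cancel₀ hc'.ne', one_smul] at h1
    · refine eq_of_forall_ge_iff fun t => ?_
      rw [hiff, hT, fn_sup, sup_le_iff, max_le_iff, hiff, hiff]
  obtain ⟨φ, h1, h2, h3⟩ := exists_hom hSJ w
  have hpw : 0 < p w := by
    by_contra hcon
    push Not at hcon
    rw [hiff, zero_smul] at hcon
    exact he (le_antisymm hcon (hTw0 e))
  have hub : ∀ x, φ x ≤ ‖T‖ * ‖x‖ := by
    intro x
    refine (h2 x).trans (le_trans ?_ (T.le_opNorm x))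
    rw [hiff]
    exact (le_abs_self _).trans (hbd x)
  refine ⟨φ, h1, hpw.trans_le h3, ‖T‖, fun x => abs_le.mpr ⟨?_, hub x⟩⟩
  have := hub (-x)
  rw [map_neg, norm_neg] at this
  linarith

end Pool.Agent.Q252.PBL
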